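import Pool.Agent.Helper70.BI.HH.StHC

/-!
# Project BI, stage 7 (H), module BDC: a square which is constant on the boundary
-/

set_option autoImplicit false

open scoped Topology unitInterval
open Set

namespace Pool.Agent.Helper70.HH

namespace BDC

/-- the sides of the square -/
theorem bv (t : I) : ((t : ℝ) ≤ 1 / 2 ∧ ((brm t).1 : ℝ) = 2 * t ∧ ((brm t).2 : ℝ) = 0) ∨
    (1 / 2 ≤ (t : ℝ) ∧ ((brm t).1 : ℝ) = 1 ∧ ((brm t).2 : ℝ) = 2 * t - 1) := by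
  have e1 : ((brm t).1 : ℝ) = min 1 (2 * (t : ℝ)) := rfl
  have e2 : ((brm t).2 : ℝ) = max 0 (2 * (t : ℝ) - 1) := rfl
  rcases le_total (t : ℝ) (1 / 2) with h | h
  · refine Or.inl ⟨h, ?_, ?_⟩
    · rw [e1, min_eq_right (by linarith)]
    · rw [e2, max_eq_left (by linarith)]
  · refine Or.inr ⟨h, ?_, ?_⟩
    · rw [e1, min_eq_left (by linarith)]
    · rw [e2, max_eq_right (by linarith)]

theorem c1 (s t : I) : ((cellm (s, t)).1 : ℝ) =
    (1 - (s : ℝ)) * (brm t).1 + (s : ℝ) * (brm t).2 := rfl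

theorem c2 (s t : I) : ((cellm (s, t)).2 : ℝ) =
    (1 - (s : ℝ)) * (brm t).2 + (s : ℝ) * (brm t).1 := rfl

/-- the complement of the open square -/
def Out (z : ℝ × ℝ) : Prop := z.1 ≤ 0 ∨ 1 ≤ z.1 ∨ z.2 ≤ 0 ∨ 1 ≤ z.2

variable {X : Type} [TopologicalSpace X] {V : Type} [AddCommGroup V]

theorem step (w : C(I × I, X) → V) (v : C(I, X) → V) (hU : IsU X V w v) (Φ : C(ℝ × ℝ, X))
    (y : X) (out : ∀ z, Out z → Φ z = y) (h0 h1 : C(I × I, ℝ × ℝ))
    (hb : ∀ (u s t : I), (s = 0 ∨ s = 1 ∨ t = 0 ∨ t = 1) →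
      Out ((1 - (u : ℝ)) * (h0 (s, t)).1 + (u : ℝ) * (h1 (s, t)).1,
        (1 - (u : ℝ)) * (h0 (s, t)).2 + (u : ℝ) * (h1 (s, t)).2)) :
    w (Φ.comp h0) = w (Φ.comp h1) := by
  let L : C(I × (I × I), X) :=
    ⟨fun z => Φ ((1 - (z.1 : ℝ)) * (h0 z.2).1 + (z.1 : ℝ) * (h1 z.2).1,
      (1 - (z.1 : ℝ)) * (h0 z.2).2 + (z.1 : ℝ) * (h1 z.2).2), by fun_prop⟩
  have hL : ∀ u s t : I, (s = 0 ∨ s = 1 ∨ t = 0 ∨ t = 1) → L (u, (s, t)) = y :=
    fun u s t h => out _ (hb u s t h)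
  have h00 : ∀ z, L (0, z) = (Φ.comp h0) z := by
    intro z
    show Φ ((1 - ((0 : I) : ℝ)) * (h0 z).1 + ((0 : I) : ℝ) * (h1 z).1,
      (1 - ((0 : I) : ℝ)) * (h0 z).2 + ((0 : I) : ℝ) * (h1 z).2) = Φ (h0 z)
    rw [Icc.coe_zero, sub_zero, one_mul, zero_mul, add_zero, one_mul, zero_mul, add_zero]
  have h11 : ∀ z, L (1, z) = (Φ.comp h1) z := by
    intro z
    show Φ ((1 - ((1 : I) : ℝ)) * (h0 z).1 + ((1 : I) : ℝ) * (h1 z).1,
      (1 - ((1 : I) : ℝ)) * (h0 z).2 + ((1 : I) : ℝ) * (h1 z).2) = Φ (h1 z)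
    rw [Icc.coe_one, sub_self, zero_mul, one_mul, zero_add, zero_mul, one_mul, zero_add]
  refine hU.hom (Φ.comp h0) (Φ.comp h1) L ?_ h00 h11 ?_
  · intro s
    constructor
    · rw [← h00, ← h00, hL _ _ _ (Or.inr (Or.inr (Or.inl rfl))), hL _ _ _ (Or.inl rfl)]
    · rw [← h00, ← h00, hL _ _ _ (Or.inr (Or.inr (Or.inr rfl))), hL _ _ _ (Or.inl rfl)]
  · intro r s t h
    rw [hL _ _ _ h, hL _ _ _ h]

/-- the map `cellm` with values in the plane -/
noncomputable def ps : C(I × I, ℝ × ℝ) :=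
  ⟨fun z => (((cellm z).1 : ℝ), ((cellm z).2 : ℝ)), by fun_prop⟩

/-- the transposition with values in the plane -/
def pt : C(I × I, ℝ × ℝ) := ⟨fun z => ((z.2 : ℝ), (z.1 : ℝ)), by fun_prop⟩

/-- expansion from the centre of the square by the factor three -/
noncomputable def big (h : C(I × I, ℝ × ℝ)) : C(I × I, ℝ × ℝ) :=
  ⟨fun z => (3 * (h z).1 - 1, 3 * (h z).2 - 1), by fun_prop⟩

/-- a point with a coordinate `0` or `1` -/
def Bd (z : ℝ × ℝ) : Prop := z.1 = 0 ∨ z.1 = 1 ∨ z.2 = 0 ∨ z.2 = 1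

theorem ps_bd (s t : I) (h : s = 0 ∨ s = 1 ∨ t = 0 ∨ t = 1) : Bd (ps (s, t)) := by
  have e1 : (ps (s, t)).1 = (1 - (s : ℝ)) * (brm t).1 + (s : ℝ) * (brm t).2 := rfl
  have e2 : (ps (s, t)).2 = (1 - (s : ℝ)) * (brm t).2 + (s : ℝ) * (brm t).1 := rfl
  unfold Bd
  rw [e1, e2]
  have hb := bv t
  rcases h with h | h | h | h
  · rw [h, Icc.coe_zero]
    rcases hb with ⟨_, _, b⟩ | ⟨_, b, _⟩
    · refine Or.inr (Or.inr (Or.inl ?_))
      rw [b]
      ring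
    · refine Or.inr (Or.inl ?_)
      rw [b]
      ring
  · rw [h, Icc.coe_one]
    rcases hb with ⟨_, _, b⟩ | ⟨_, b, _⟩
    · refine Or.inl ?_
      rw [b]
      ring
    · refine Or.inr (Or.inr (Or.inr ?_))
      rw [b]
      ring
  · have h0 : (t : ℝ) = 0 := by rw [h, Icc.coe_zero]
    rcases hb with ⟨_, a, b⟩ | ⟨a, _, _⟩
    · refine Or.inl ?_
      rw [a, b, h0]
      ring
    · exfalso
      rw [h0] at a
      norm_num at a
  · have h0 : (t : ℝ) = 1 := by rw [h, Icc.coe_one]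
    rcases hb with ⟨a, _, _⟩ | ⟨_, a, b⟩
    · exfalso
      rw [h0] at a
      norm_num at a
    · refine Or.inr (Or.inl ?_)
      rw [a, b, h0]
      ring

theorem pt_bd (s t : I) (h : s = 0 ∨ s = 1 ∨ t = 0 ∨ t = 1) : Bd (pt (s, t)) := by
  have e1 : (pt (s, t)).1 = (t : ℝ) := rfl
  have e2 : (pt (s, t)).2 = (s : ℝ) := rfl
  unfold Bd
  rw [e1, e2]
  rcases h with h | h | h | h
  · exact Or.inr (Or.inr (Or.inl (by rw [h, Icc.coe_zero])))
  · exact Or.inr (Or.inr (Or.inr (by rw [h, Icc.coe_one])))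
  · exact Or.inl (by rw [h, Icc.coe_zero])
  · exact Or.inr (Or.inl (by rw [h, Icc.coe_one]))

theorem out_up (u : I) (z : ℝ × ℝ) (h : Bd z) :
    Out ((1 - (u : ℝ)) * z.1 + (u : ℝ) * (3 * z.1 - 1),
      (1 - (u : ℝ)) * z.2 + (u : ℝ) * (3 * z.2 - 1)) := by
  have h0 := u.2.1
  rcases h with h | h | h | h
  · refine Or.inl ?_
    show (1 - (u : ℝ)) * z.1 + (u : ℝ) * (3 * z.1 - 1) ≤ 0
    rw [h]
    linarith
  · refine Or.inr (Or.inl ?_)
    show 1 ≤ (1 - (u : ℝ)) * z.1 + (u : ℝ) * (3 * z.1 - 1)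
    rw [h]
    linarith
  · refine Or.inr (Or.inr (Or.inl ?_))
    show (1 - (u : ℝ)) * z.2 + (u : ℝ) * (3 * z.2 - 1) ≤ 0
    rw [h]
    linarith
  · refine Or.inr (Or.inr (Or.inr ?_))
    show 1 ≤ (1 - (u : ℝ)) * z.2 + (u : ℝ) * (3 * z.2 - 1)
    rw [h]
    linarith

theorem out_dn (u : I) (z : ℝ × ℝ) (h : Bd z) :
    Out ((1 - (u : ℝ)) * (3 * z.1 - 1) + (u : ℝ) * z.1,
      (1 - (u : ℝ)) * (3 * z.2 - 1) + (u : ℝ) * z.2) := by
  have h0 := u.2.2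
  rcases h with h | h | h | h
  · refine Or.inl ?_
    show (1 - (u : ℝ)) * (3 * z.1 - 1) + (u : ℝ) * z.1 ≤ 0
    rw [h]
    linarith
  · refine Or.inr (Or.inl ?_)
    show 1 ≤ (1 - (u : ℝ)) * (3 * z.1 - 1) + (u : ℝ) * z.1
    rw [h]
    linarith
  · refine Or.inr (Or.inr (Or.inl ?_))
    show (1 - (u : ℝ)) * (3 * z.2 - 1) + (u : ℝ) * z.2 ≤ 0
    rw [h]
    linarith
  · refine Or.inr (Or.inr (Or.inr ?_))
    show 1 ≤ (1 - (u : ℝ)) * (3 * z.2 - 1) + (u : ℝ) * z.2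
    rw [h]
    linarith

/-- the middle step: the interpolation avoids the square with side `1/3` on the boundary -/
theorem mid_step (u s t : I) (h : s = 0 ∨ s = 1 ∨ t = 0 ∨ t = 1) :
    Out ((1 - (u : ℝ)) * (big ps (s, t)).1 + (u : ℝ) * (big pt (s, t)).1,
      (1 - (u : ℝ)) * (big ps (s, t)).2 + (u : ℝ) * (big pt (s, t)).2) := by
  have e1 : (big ps (s, t)).1 = 3 * ((1 - (s : ℝ)) * (brm t).1 + (s : ℝ) * (brm t).2) - 1 := rfl
  have e2 : (big ps (s, t)).2 = 3 * ((1 - (s : ℝ)) * (brm t).2 + (s : ℝ) * (brm t).1) - 1 := rfl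
  have e3 : (big pt (s, t)).1 = 3 * (t : ℝ) - 1 := rfl
  have e4 : (big pt (s, t)).2 = 3 * (s : ℝ) - 1 := rfl
  rw [e1, e2, e3, e4]
  have u0 := u.2.1
  have u1 := u.2.2
  have t0 := t.2.1
  have t1 := t.2.2
  generalize (u : ℝ) = a at u0 u1 ⊢
  have hb := bv t
  rcases h with h | h | h | h
  · rw [h, Icc.coe_zero]
    rcases hb with ⟨_, _, b⟩ | ⟨c, b, b'⟩
    · refine Or.inr (Or.inr (Or.inl ?_))
      show (1 - a) * (3 * ((1 - 0) * ((brm t).2 : ℝ) + 0 * ((brm t).1 : ℝ)) - 1) +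
        a * (3 * 0 - 1) ≤ 0
      rw [b]
      nlinarith
    · rw [b, b']
      by_cases hh : (1 - a) * (2 * (t : ℝ) - 1) ≤ 1 / 3
      · refine Or.inr (Or.inr (Or.inl ?_))
        show (1 - a) * (3 * ((1 - 0) * (2 * (t : ℝ) - 1) + 0 * 1) - 1) + a * (3 * 0 - 1) ≤ 0
        nlinarith
      · refine Or.inr (Or.inl ?_)
        show 1 ≤ (1 - a) * (3 * ((1 - 0) * 1 + 0 * (2 * (t : ℝ) - 1)) - 1) +
          a * (3 * (t : ℝ) - 1)
        have h1 : 1 / 3 ≤ 1 - a := by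
          by_contra hc
          push Not at hc hh
          nlinarith
        have h2 : (1 - (t : ℝ)) ≤ 1 / 2 := by linarith
        nlinarith [mul_nonneg u0 (sub_nonneg.2 h2)]
  · rw [h, Icc.coe_one]
    rcases hb with ⟨c, b, b'⟩ | ⟨_, b, _⟩
    · rw [b, b']
      by_cases hh : 2 / 3 ≤ (1 - a) * (2 * (t : ℝ)) + a
      · refine Or.inr (Or.inr (Or.inr ?_))
        show 1 ≤ (1 - a) * (3 * ((1 - 1) * 0 + 1 * (2 * (t : ℝ))) - 1) + a * (3 * 1 - 1)
        nlinarith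
      · refine Or.inl ?_
        show (1 - a) * (3 * ((1 - 1) * (2 * (t : ℝ)) + 1 * 0) - 1) + a * (3 * (t : ℝ) - 1) ≤ 0
        push Not at hh
        have h1 : a ≤ 2 / 3 := by
          have : 0 ≤ (1 - a) * (2 * (t : ℝ)) := mul_nonneg (by linarith) (by linarith)
          linarith
        nlinarith [mul_nonneg u0 (sub_nonneg.2 c)]
    · refine Or.inr (Or.inr (Or.inr ?_))
      show 1 ≤ (1 - a) * (3 * ((1 - 1) * ((brm t).2 : ℝ) + 1 * ((brm t).1 : ℝ)) - 1) +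
        a * (3 * 1 - 1)
      rw [b]
      nlinarith
  · have h0 : (t : ℝ) = 0 := by rw [h, Icc.coe_zero]
    rcases hb with ⟨_, b, b'⟩ | ⟨c, _, _⟩
    · refine Or.inl ?_
      show (1 - a) * (3 * ((1 - (s : ℝ)) * ((brm t).1 : ℝ) + (s : ℝ) * ((brm t).2 : ℝ)) - 1) +
        a * (3 * (t : ℝ) - 1) ≤ 0
      rw [b, b', h0]
      nlinarith
    · exfalso
      rw [h0] at c
      norm_num at c
  · have h0 : (t : ℝ) = 1 := by rw [h, Icc.coe_one]
    rcases hb with ⟨c, _, _⟩ | ⟨_, b, b'⟩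
    · exfalso
      rw [h0] at c
      norm_num at c
    · refine Or.inr (Or.inl ?_)
      show 1 ≤ (1 - a) * (3 * ((1 - (s : ℝ)) * ((brm t).1 : ℝ) +
        (s : ℝ) * ((brm t).2 : ℝ)) - 1) + a * (3 * (t : ℝ) - 1)
      rw [b, b', h0]
      nlinarith

end BDC

theorem m_BDC : StBDC := by
  intro X _ V _ w v hU S T y hS hT
  have eb : S.comp brm = S.comp ltm := by
    apply ContinuousMap.ext
    intro t
    have h1 : S (brm t) = y := by
      have h : S ((brm t).1, (brm t).2) = y := by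
        apply hS
        rcases BDC.bv t with ⟨_, _, b⟩ | ⟨_, b, _⟩
        · exact Or.inr (Or.inr (Or.inl (Subtype.ext (b.trans Icc.coe_zero.symm))))
        · exact Or.inr (Or.inl (Subtype.ext (b.trans Icc.coe_one.symm)))
      exact h
    have h2 : S (ltm t) = y := by
      have h : S ((brm t).2, (brm t).1) = y := by
        apply hS
        rcases BDC.bv t with ⟨_, _, b⟩ | ⟨_, b, _⟩
        · exact Or.inl (Subtype.ext (b.trans Icc.coe_zero.symm))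
        · exact Or.inr (Or.inr (Or.inr (Subtype.ext (b.trans Icc.coe_one.symm))))
      exact h
    show S (brm t) = S (ltm t)
    rw [h1, h2]
  let Φ : C(ℝ × ℝ, X) := ⟨fun z => S (projIcc (0 : ℝ) 1 zero_le_one z.1,
    projIcc (0 : ℝ) 1 zero_le_one z.2), by fun_prop⟩
  have hΦ : ∀ a b : I, Φ ((a : ℝ), (b : ℝ)) = S (a, b) := by
    intro a b
    show S (projIcc (0 : ℝ) 1 zero_le_one (a : ℝ), projIcc (0 : ℝ) 1 zero_le_one (b : ℝ)) = _
    rw [projIcc_val, projIcc_val]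
  have out : ∀ z, BDC.Out z → Φ z = y := by
    intro z hz
    show S (projIcc (0 : ℝ) 1 zero_le_one z.1, projIcc (0 : ℝ) 1 zero_le_one z.2) = y
    apply hS
    rcases hz with h | h | h | h
    · exact Or.inl (projIcc_of_le_left _ h)
    · exact Or.inr (Or.inl (projIcc_of_right_le _ h))
    · exact Or.inr (Or.inr (Or.inl (projIcc_of_le_left _ h)))
    · exact Or.inr (Or.inr (Or.inr (projIcc_of_right_le _ h)))
  have k1 : w (Φ.comp BDC.ps) = w (Φ.comp (BDC.big BDC.ps)) :=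
    BDC.step w v hU Φ y out _ _ fun u s t h => BDC.out_up u _ (BDC.ps_bd s t h)
  have k2 : w (Φ.comp (BDC.big BDC.ps)) = w (Φ.comp (BDC.big BDC.pt)) :=
    BDC.step w v hU Φ y out _ _ fun u s t h => BDC.mid_step u s t h
  have k3 : w (Φ.comp (BDC.big BDC.pt)) = w (Φ.comp BDC.pt) :=
    BDC.step w v hU Φ y out _ _ fun u s t h => BDC.out_dn u _ (BDC.pt_bd s t h)
  have e1 : S.comp cellm = Φ.comp BDC.ps := by
    apply ContinuousMap.ext
    intro z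
    exact (hΦ (cellm z).1 (cellm z).2).symm
  have e2 : T = Φ.comp BDC.pt := by
    apply ContinuousMap.ext
    intro z
    exact (hT z.1 z.2).trans (hΦ z.2 z.1).symm
  unfold aa
  rw [eb, e1, k1, k2, k3, ← e2, add_sub_cancel_right]

end Pool.Agent.Helper70.HH
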