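import Pool.Agent.Helper70.BI.HH.StHC

/-!
# Project BI, stage 7 (H), module UNT: from the typed to the untyped calculus
-/

set_option autoImplicit false

open scoped Topology unitInterval
open Set

namespace Pool.Agent.Helper70.HH

namespace UNT

theorem hl0 : hl 0 = 0 := by
  apply Subtype.ext
  show ((0 : I) : ℝ) / 2 = ((0 : I) : ℝ)
  rw [Icc.coe_zero]
  norm_num

theorem hl1 : hl 1 = mid := by
  apply Subtype.ext
  show ((1 : I) : ℝ) / 2 = 1 / 2
  rw [Icc.coe_one]

theorem hr0 : hr 0 = mid := by
  apply Subtype.ext
  show (1 + ((0 : I) : ℝ)) / 2 = 1 / 2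
  rw [Icc.coe_zero]
  norm_num

theorem hr1 : hr 1 = 1 := by
  apply Subtype.ext
  show (1 + ((1 : I) : ℝ)) / 2 = ((1 : I) : ℝ)
  rw [Icc.coe_one]
  norm_num

/-- two functions on the interval which agree on both halves are equal -/
theorem halves {Y : Type} (F G : I → Y) (h1 : ∀ u, F (hl u) = G (hl u))
    (h2 : ∀ u, F (hr u) = G (hr u)) (t : I) : F t = G t := by
  by_cases h : (t : ℝ) ≤ 1 / 2
  · have ht : t = hl ⟨2 * (t : ℝ), ⟨by linarith [t.2.1], by linarith⟩⟩ := by
      apply Subtype.ext
      show (t : ℝ) = 2 * (t : ℝ) / 2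
      ring
    rw [ht]
    exact h1 _
  · have ht : t = hr ⟨2 * (t : ℝ) - 1, ⟨by linarith, by linarith [t.2.2]⟩⟩ := by
      apply Subtype.ext
      show (t : ℝ) = (1 + (2 * (t : ℝ) - 1)) / 2
      ring
    rw [ht]
    exact h2 _

variable {X : Type} [TopologicalSpace X]

theorem ext_eq {x y : X} (P : Path x y) (t : I) : P.extend (t : ℝ) = P t :=
  Path.extend_apply _ t.2

theorem trl {x y z : X} (P : Path x y) (Q : Path y z) (t : I) : (P.trans Q) (hl t) = P t := by
  rw [← ext_eq, ← ext_eq P]
  show (P.trans Q).extend ((t : ℝ) / 2) = _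
  rw [Path.extend_trans_of_le_half _ _ (by linarith [t.2.2] : (t : ℝ) / 2 ≤ 1 / 2)]
  congr 1
  ring

theorem trr {x y z : X} (P : Path x y) (Q : Path y z) (t : I) : (P.trans Q) (hr t) = Q t := by
  rw [← ext_eq, ← ext_eq Q]
  show (P.trans Q).extend ((1 + (t : ℝ)) / 2) = _
  rw [Path.extend_trans_of_half_le _ _ (by linarith [t.2.1] : 1 / 2 ≤ (1 + (t : ℝ)) / 2)]
  congr 1
  ring

section uniq

variable {V : Type}

theorem uniqW (w : ∀ {x y : X} {p q : Path x y}, Q2 p q → V) {x y x' y' : X} {p q : Path x y}
    {p' q' : Path x' y'} (γ : Path p q) (γ' : Path p' q') (h : ∀ s t, γ s t = γ' s t) :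
    w (Path.Homotopic.Quotient.mk γ) = w (Path.Homotopic.Quotient.mk γ') := by
  have hx : x = x' := by
    have := h 0 0
    rw [γ.source, γ'.source, p.source, p'.source] at this
    exact this
  have hy : y = y' := by
    have := h 0 1
    rw [γ.source, γ'.source, p.target, p'.target] at this
    exact this
  subst hx
  subst hy
  have hp : p = p' := by
    apply Path.ext
    funext t
    have := h 0 t
    rw [γ.source, γ'.source] at this
    exact this
  have hq : q = q' := by
    apply Path.ext
    funext t
    have := h 1 t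
    rw [γ.target, γ'.target] at this
    exact this
  subst hp
  subst hq
  have hγ : γ = γ' := by
    apply Path.ext
    funext s
    apply Path.ext
    funext t
    exact h s t
  rw [hγ]

theorem uniqF (f : ∀ {x y z : X}, Path x y → Path y z → V) {x y z x' y' z' : X} (P : Path x y)
    (Q : Path y z) (P' : Path x' y') (Q' : Path y' z')
    (h : ∀ t, (P.trans Q) t = (P'.trans Q') t) : f P Q = f P' Q' := by
  have hP : ∀ t, P t = P' t := fun t => by rw [← trl P Q, h, trl]
  have hQ : ∀ t, Q t = Q' t := fun t => by rw [← trr P Q, h, trr]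
  have hx : x = x' := by
    have := hP 0
    rw [P.source, P'.source] at this
    exact this
  have hy : y = y' := by
    have := hP 1
    rw [P.target, P'.target] at this
    exact this
  have hz : z = z' := by
    have := hQ 1
    rw [Q.target, Q'.target] at this
    exact this
  subst hx
  subst hy
  subst hz
  have h1 : P = P' := Path.ext (funext hP)
  have h2 : Q = Q' := Path.ext (funext hQ)
  rw [h1, h2]

/-- a typed representative of a square -/
def HasW (K : C(I × I, X)) : Prop :=
  ∃ (x y : X) (p q : Path x y) (γ : Path p q), ∀ s t, γ s t = K (s, t)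

/-- a typed representative of a path -/
def HasF (R : C(I, X)) : Prop :=
  ∃ (x y z : X) (P : Path x y) (Q : Path y z), ∀ t, (P.trans Q) t = R t

variable [AddCommGroup V]

open Classical in
/-- the value of a square -/
noncomputable def W (w : ∀ {x y : X} {p q : Path x y}, Q2 p q → V) (K : C(I × I, X)) : V :=
  if h : HasW K then
    w (Path.Homotopic.Quotient.mk h.choose_spec.choose_spec.choose_spec.choose_spec.choose)
  else 0

open Classical in
/-- the value of a path -/
noncomputable def F (f : ∀ {x y z : X}, Path x y → Path y z → V) (R : C(I, X)) : V :=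
  if h : HasF R then f h.choose_spec.choose_spec.choose_spec.choose
    h.choose_spec.choose_spec.choose_spec.choose_spec.choose
  else 0

theorem W_eq (w : ∀ {x y : X} {p q : Path x y}, Q2 p q → V) (K : C(I × I, X)) {x y : X}
    {p q : Path x y} (γ : Path p q) (h : ∀ s t, γ s t = K (s, t)) :
    W w K = w (Path.Homotopic.Quotient.mk γ) := by
  have hK : HasW K := ⟨x, y, p, q, γ, h⟩
  unfold W
  rw [dif_pos hK]
  apply uniqW
  intro s t
  rw [hK.choose_spec.choose_spec.choose_spec.choose_spec.choose_spec s t, h]

theorem F_eq (f : ∀ {x y z : X}, Path x y → Path y z → V) (R : C(I, X)) {x y z : X}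
    (P : Path x y) (Q : Path y z) (h : ∀ t, (P.trans Q) t = R t) : F f R = f P Q := by
  have hR : HasF R := ⟨x, y, z, P, Q, h⟩
  unfold F
  rw [dif_pos hR]
  apply uniqF
  intro t
  rw [hR.choose_spec.choose_spec.choose_spec.choose_spec.choose_spec t, h]

end uniq

/-- the rows of a cell -/
def rowP (K : C(I × I, X)) (hK : IsCell K) (s : I) : Path (K (0, 0)) (K (0, 1)) where
  toFun t := K (s, t)
  continuous_toFun := by fun_prop
  source' := (hK s).1
  target' := (hK s).2

/-- the path `t ↦ K (s, hl t)` -/
noncomputable def rowL (K : C(I × I, X)) (hK : IsCell K) (hm : ∀ s, K (s, mid) = K (0, mid))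
    (s : I) : Path (K (0, 0)) (K (0, mid)) where
  toFun t := K (s, hl t)
  continuous_toFun := by fun_prop
  source' := by rw [hl0]; exact (hK s).1
  target' := by rw [hl1]; exact hm s

/-- the path `t ↦ K (s, hr t)` -/
noncomputable def rowR (K : C(I × I, X)) (hK : IsCell K) (hm : ∀ s, K (s, mid) = K (0, mid))
    (s : I) : Path (K (0, mid)) (K (0, 1)) where
  toFun t := K (s, hr t)
  continuous_toFun := by fun_prop
  source' := by rw [hr0]; exact hm s
  target' := by rw [hr1]; exact (hK s).2

/-- a path from a continuous map of the interval -/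
def ofM (R : C(I, X)) {x y : X} (h0 : R 0 = x) (h1 : R 1 = y) : Path x y where
  toFun := R
  continuous_toFun := R.continuous
  source' := h0
  target' := h1

theorem main (V : Type) [AddCommGroup V]
    (w : ∀ {x y : X} {p q : Path x y}, Q2 p q → V) (f : ∀ {x y z : X}, Path x y → Path y z → V)
    (hadd : ∀ {x y : X} {p q r : Path x y} (α : Q2 p q) (β : Q2 q r), w (α.trans β) = w α + w β)
    (hhor : ∀ {x y z : X} {p p' : Path x y} {q q' : Path y z} (α : Q2 p p') (β : Q2 q q'),
      w (hc α β) = w α + w β + f p' q' - f p q)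
    (hasc : ∀ {x y z v : X} (p : Path x y) (q : Path y z) (r : Path z v),
      w (asc p q r) = f q r + f p (q.trans r) - f p q - f (p.trans q) r) :
    IsU X V (W w) (F f) where
  vert K hK := by
    let γ1 : Path (rowP K hK 0) (rowP K hK mid) := mkP (lowS K)
      (fun t => by show K (hl 0, t) = K (0, t); rw [hl0])
      (fun t => by show K (hl 1, t) = K (mid, t); rw [hl1])
      (fun s => (hK (hl s)).1) (fun s => (hK (hl s)).2)
    let γ2 : Path (rowP K hK mid) (rowP K hK 1) := mkP (upS K)
      (fun t => by show K (hr 0, t) = K (mid, t); rw [hr0])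
      (fun t => by show K (hr 1, t) = K (1, t); rw [hr1])
      (fun s => (hK (hr s)).1) (fun s => (hK (hr s)).2)
    have e1 : W w (lowS K) = w (Path.Homotopic.Quotient.mk γ1) := W_eq w _ γ1 fun s t => rfl
    have e2 : W w (upS K) = w (Path.Homotopic.Quotient.mk γ2) := W_eq w _ γ2 fun s t => rfl
    have e3 : W w K = w (Path.Homotopic.Quotient.mk (γ1.trans γ2)) := by
      refine W_eq w _ (γ1.trans γ2) fun s t => ?_
      refine halves (fun s => (γ1.trans γ2) s t) (fun s => K (s, t)) ?_ ?_ s
      · intro u
        show ((γ1.trans γ2) (hl u)) t = K (hl u, t)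
        rw [trl]
        rfl
      · intro u
        show ((γ1.trans γ2) (hr u)) t = K (hr u, t)
        rw [trr]
        rfl
    rw [e1, e2, e3, Path.Homotopic.Quotient.mk_trans, hadd]
  hor K hK hm := by
    let γ : Path (rowL K hK hm 0) (rowL K hK hm 1) := mkP (lowT K)
      (fun t => rfl) (fun t => rfl)
      (fun s => by show K (s, hl 0) = _; rw [hl0]; exact (hK s).1)
      (fun s => by show K (s, hl 1) = _; rw [hl1]; exact hm s)
    let δ : Path (rowR K hK hm 0) (rowR K hK hm 1) := mkP (upT K)
      (fun t => rfl) (fun t => rfl)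
      (fun s => by show K (s, hr 0) = _; rw [hr0]; exact hm s)
      (fun s => by show K (s, hr 1) = _; rw [hr1]; exact (hK s).2)
    have e1 : W w (lowT K) = w (Path.Homotopic.Quotient.mk γ) := W_eq w _ γ fun s t => rfl
    have e2 : W w (upT K) = w (Path.Homotopic.Quotient.mk δ) := W_eq w _ δ fun s t => rfl
    have e3 : W w K = w (Path.Homotopic.Quotient.mk (hcP γ δ)) := by
      refine W_eq w _ (hcP γ δ) fun s t => ?_
      refine halves (fun t => (hcP γ δ) s t) (fun t => K (s, t)) ?_ ?_ t
      · intro u
        show ((γ s).trans (δ s)) (hl u) = K (s, hl u)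
        rw [trl]
        rfl
      · intro u
        show ((γ s).trans (δ s)) (hr u) = K (s, hr u)
        rw [trr]
        rfl
    have e4 : ∀ s : I, F f (row K s) = f (rowL K hK hm s) (rowR K hK hm s) := by
      intro s
      refine F_eq f _ _ _ fun t => ?_
      refine halves (fun t => ((rowL K hK hm s).trans (rowR K hK hm s)) t) (fun t => row K s t)
        ?_ ?_ t
      · intro u
        show ((rowL K hK hm s).trans (rowR K hK hm s)) (hl u) = _
        rw [trl]
        rfl
      · intro u
        show ((rowL K hK hm s).trans (rowR K hK hm s)) (hr u) = _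
        rw [trr]
        rfl
    rw [e1, e2, e3, e4, e4, ← hc_mk, hhor]
  hom K K' L hK h0 h1 hb := by
    let γ : Path (rowP K hK 0) (rowP K hK 1) := mkP K (fun t => rfl) (fun t => rfl)
      (fun s => (hK s).1) (fun s => (hK s).2)
    have hL : ∀ r s t, (s = 0 ∨ s = 1 ∨ t = 0 ∨ t = 1) → L (r, (s, t)) = K (s, t) := by
      intro r s t h
      rw [hb r s t h, h0]
    let γ' : Path (rowP K hK 0) (rowP K hK 1) := mkP K'
      (fun t => by rw [← h1, hL 1 0 t (Or.inl rfl)]; rfl)
      (fun t => by rw [← h1, hL 1 1 t (Or.inr (Or.inl rfl))]; rfl)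
      (fun s => by rw [← h1, hL 1 s 0 (Or.inr (Or.inr (Or.inl rfl)))]; exact (hK s).1)
      (fun s => by rw [← h1, hL 1 s 1 (Or.inr (Or.inr (Or.inr rfl)))]; exact (hK s).2)
    have e1 : W w K = w (Path.Homotopic.Quotient.mk γ) := W_eq w _ γ fun s t => rfl
    have e2 : W w K' = w (Path.Homotopic.Quotient.mk γ') := W_eq w _ γ' fun s t => rfl
    have hh : γ.Homotopic γ' := by
      let T : I × I → Path (K (0, 0)) (K (0, 1)) := fun z =>
        ⟨⟨fun t => L (z.1, (z.2, t)), by fun_prop⟩,
          by
            show L (z.1, (z.2, 0)) = _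
            rw [hL _ _ _ (Or.inr (Or.inr (Or.inl rfl)))]
            exact (hK _).1,
          by
            show L (z.1, (z.2, 1)) = _
            rw [hL _ _ _ (Or.inr (Or.inr (Or.inr rfl)))]
            exact (hK _).2⟩
      have hT : Continuous T := by
        rw [← Path.continuous_uncurry_iff]
        show Continuous fun z : (I × I) × I => L (z.1.1, (z.1.2, z.2))
        fun_prop
      exact ⟨{ toFun := T
               continuous_toFun := hT
               map_zero_left := fun s => by
                 apply Path.ext
                 funext t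
                 exact h0 (s, t)
               map_one_left := fun s => by
                 apply Path.ext
                 funext t
                 exact h1 (s, t)
               prop' := fun r s hs => by
                 have hs' : s = 0 ∨ s = 1 := by simpa using hs
                 apply Path.ext
                 funext t
                 show L (r, (s, t)) = K (s, t)
                 rcases hs' with h | h
                 · exact hL r s t (Or.inl h)
                 · exact hL r s t (Or.inr (Or.inl h)) }⟩
    rw [e1, e2]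
    congr 1
    exact Quotient.sound hh
  assoc R := by
    let p : Path (R 0) (R (hl mid)) := ofM ((R.comp hl).comp hl)
      (by show R (hl (hl 0)) = _; rw [hl0, hl0]) (by show R (hl (hl 1)) = _; rw [hl1])
    let q : Path (R (hl mid)) (R mid) := ofM ((R.comp hl).comp hr)
      (by show R (hl (hr 0)) = _; rw [hr0]) (by show R (hl (hr 1)) = _; rw [hr1, hl1])
    let r : Path (R mid) (R 1) := ofM (R.comp hr)
      (by show R (hr 0) = _; rw [hr0]) (by show R (hr 1) = _; rw [hr1])
    have a1 : ∀ t, (p.trans q) t = R (hl t) := by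
      intro t
      refine halves (fun t => (p.trans q) t) (fun t => R (hl t)) ?_ ?_ t
      · intro u
        show (p.trans q) (hl u) = _
        rw [trl]
        rfl
      · intro u
        show (p.trans q) (hr u) = _
        rw [trr]
        rfl
    have a2 : ∀ t, ((p.trans q).trans r) t = R t := by
      intro t
      refine halves (fun t => ((p.trans q).trans r) t) (fun t => R t) ?_ ?_ t
      · intro u
        show ((p.trans q).trans r) (hl u) = _
        rw [trl, a1]
      · intro u
        show ((p.trans q).trans r) (hr u) = _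
        rw [trr]
        rfl
    have a3 : ∀ t, (p.trans (q.trans r)) t = R (phiI t) := by
      intro t
      rw [← ext_eq, ← phi_trans, ← a2 (phiI t), ← ext_eq]
      rfl
    have a4 : ∀ t, (q.trans r) t = R (phiI (hr t)) := by
      intro t
      rw [← a3, trr]
    have e0 : W w (ascU R) = w (asc p q r) := by
      refine W_eq w _ (ascP p q r) fun s t => ?_
      let u : I := ⟨(1 - (s : ℝ)) * t + (s : ℝ) * (phiI t : ℝ), by
        constructor
        · nlinarith [s.2.1, s.2.2, t.2.1, t.2.2, (phiI t).2.1, (phiI t).2.2]
        · nlinarith [s.2.1, s.2.2, t.2.1, t.2.2, (phiI t).2.1, (phiI t).2.2]⟩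
      exact (ext_eq ((p.trans q).trans r) u).trans (a2 u)
    have e1 : F f ((R.comp phiI).comp hr) = f q r := F_eq f _ _ _ a4
    have e2 : F f (R.comp phiI) = f p (q.trans r) := F_eq f _ _ _ a3
    have e3 : F f (R.comp hl) = f p q := F_eq f _ _ _ a1
    have e4 : F f R = f (p.trans q) r := F_eq f _ _ _ a2
    rw [e0, e1, e2, e3, e4, hasc]

end UNT

theorem m_UNT : StUNT := by
  intro X _ V _ w f hadd hhor hasc
  refine ⟨UNT.W w, UNT.F f, UNT.main V w f hadd hhor hasc, ?_⟩
  intro x y p q γ
  exact UNT.W_eq w _ γ fun s t => rfl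

end Pool.Agent.Helper70.HH
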